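import Mathlib
import Pool.Agent.Lib.MP_97284c_gt.Q.All
import Pool.Agent.Lib.MP_97284c_gt.O.Odd

/-!
# The maximal area of small polygons (MP_97284c_gt)

For every `n ≥ 3` we determine `A_n`, the maximal area of a simple `n`-gon of diameter at most one.

* `n` odd: `A_n = n sin (2π/n) / (8 cos² (π/(2n)))` (Reinhardt), `A_4 = 1/2` (both known).
* `n = 2 m ≥ 6` (new for `n ≥ 10`): put `N = n - 1`. `A_n` is the value of the explicit formula `Val`
  at the unique solution `(ρ, J)` of an explicit finite system (`System N ρ J`: unknowns `ρ k`, `k` modulo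
  `N`, and `J`; the solution is symmetric, `ρ (-k) = ρ k`, so there are `m + 1` unknowns and `m + 1`
  equations). `A_n` is also the minimum of the explicit function `Sf` over all admissible `(ρ, J)`
  (`Adm N ρ J`), attained only at the solution; so every admissible `(ρ, J)` gives an upper bound for `A_n`.
* The maximal `2m`-gon `V` is unique up to congruence. Its diameters form a closed star polygon
  (a cycle of odd length `N`) and one pendant diameter; it has an axis of symmetry (through the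
  pendant vertex); there is a centre `c` on the axis with `|V (idx m k) - c|² = ρ k`, and the star
  turns by the angles `wt N k * arccos (2 (ρ k - J))`.
-/

open MeasureTheory ComplexConjugate

namespace Pool.Agent.Results.MP_97284c_gt.LargestSmall

/-! ## Small simple polygons -/

/-- The closed edge number `i` of the closed polygon with the vertices `v 0, ..., v (n-1)`
(indices modulo `n`; points of the plane are complex numbers). -/
def edge {n : ℕ} [NeZero n] (v : Fin n → ℂ) (i : Fin n) : Set ℂ := segment ℝ (v i) (v (i + 1))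

/-- The boundary curve. -/
def boundary {n : ℕ} [NeZero n] (v : Fin n → ℂ) : Set ℂ := ⋃ i, edge v i

/-- A simple `n`-gon with diameter at most one: the vertices are distinct, adjacent edges meet only at
their shared vertex, non-adjacent edges are disjoint, and all distances of vertices are at most one. -/
structure SmallSimple {n : ℕ} [NeZero n] (v : Fin n → ℂ) : Prop where
  inj : Function.Injective v
  adj : ∀ i, edge v i ∩ edge v (i + 1) = {v (i + 1)}
  nonadj : ∀ i j, j ≠ i → j ≠ i + 1 → i ≠ j + 1 → Disjoint (edge v i) (edge v j)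
  small : ∀ i j, dist (v i) (v j) ≤ 1

/-- The region enclosed by the boundary curve: the union of the bounded connected components of its
complement. -/
def region {n : ℕ} [NeZero n] (v : Fin n → ℂ) : Set ℂ :=
  {z | z ∈ (boundary v)ᶜ ∧ Bornology.IsBounded (connectedComponentIn (boundary v)ᶜ z)}

/-- The area of a polygon: Lebesgue measure of the enclosed region. -/
noncomputable def area {n : ℕ} [NeZero n] (v : Fin n → ℂ) : ℝ := (volume (region v)).toReal

/-- The set of the areas of all small simple `n`-gons; `A_n` is its supremum. -/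
def areas (n : ℕ) [NeZero n] : Set ℝ := {A | ∃ v : Fin n → ℂ, SmallSimple v ∧ A = area v}

/-! ## The system of equations -/

/-- The angle at the first vertex of a triangle with sides `√r` and `1` at this vertex and opposite
side `√s`. -/
noncomputable def phi (r s : ℝ) : ℝ := Real.arccos ((1 + r - s) / (2 * Real.sqrt r))

/-- `(4 · area)²` of a triangle with sides `√r`, `√s`, `1`. -/
def q4 (r s : ℝ) : ℝ := 2 * (r + s) - 1 - (r - s) ^ 2

/-- Weights: `2` at the multiples of `N`, `1` elsewhere. -/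
noncomputable def wt (N : ℕ) (k : ℤ) : ℝ := if (N : ℤ) ∣ k then 2 else 1

/-- Admissible data: `ρ` is `N`-periodic, `√(ρ k)`, `√(ρ (k+1))`, `1` are the sides of a nondegenerate
triangle, `ρ k + ρ (k+1) ≤ 3/4`, and `2 (ρ k - J)` is in `[-1, 1]`. -/
structure Adm (N : ℕ) (ρ : ℤ → ℝ) (J : ℝ) : Prop where
  per : ∀ k, ρ (k + N) = ρ k
  tri : ∀ k, 0 < q4 (ρ k) (ρ (k + 1))
  sml : ∀ k, ρ k + ρ (k + 1) ≤ 3 / 4
  lo : ∀ k, -1 ≤ 2 * (ρ k - J)
  hi : ∀ k, 2 * (ρ k - J) ≤ 1

/-- Solutions of the system. -/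
structure System (N : ℕ) (ρ : ℤ → ℝ) (J : ℝ) : Prop where
  adm : Adm N ρ J
  eq : ∀ k, phi (ρ k) (ρ (k - 1)) + phi (ρ k) (ρ (k + 1)) = wt N k * Real.arccos (2 * (ρ k - J))
  sum : ∑ k ∈ Finset.range N, wt N k * Real.arccos (2 * (ρ k - J)) = Real.pi

/-- The formula for the area. -/
noncomputable def Val (N : ℕ) (ρ : ℤ → ℝ) (J : ℝ) : ℝ :=
  (∑ k ∈ Finset.range N, wt N k * Real.sqrt (1 - (2 * (ρ k - J)) ^ 2)) / 2
    - (∑ k ∈ Finset.range N, Real.sqrt (q4 (ρ k) (ρ (k + 1)))) / 2

/-- Potential of a bond (its partial derivatives are `phi r s` and `phi s r`). -/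
noncomputable def Phi (r s : ℝ) : ℝ := r * phi r s + s * phi s r - Real.sqrt (q4 r s) / 2

/-- Primitive of `arccos (2 y)`. -/
noncomputable def Psi (y : ℝ) : ℝ := y * Real.arccos (2 * y) - Real.sqrt (1 - (2 * y) ^ 2) / 2

/-- The function whose minimum over the admissible data is the maximal area. -/
noncomputable def Sf (N : ℕ) (ρ : ℤ → ℝ) (J : ℝ) : ℝ :=
  (∑ k ∈ Finset.range N, Phi (ρ k) (ρ (k + 1))) - (∑ k ∈ Finset.range N, wt N k * Psi (ρ k - J))
    - Real.pi * J

/-! ## The optimal polygon -/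

/-- Index of the `k`-th vertex of the star (`N = 2 m - 1`): with `r = k mod N` it is `r/2` for `r` even
and `m + 1 + (r-1)/2` for `r` odd. (The pendant vertex has the index `m`.) -/
def idx (m : ℕ) (k : ℤ) : ℤ :=
  if (k % (2 * m - 1)) % 2 = 0 then (k % (2 * m - 1)) / 2
  else m + 1 + (k % (2 * m - 1) - 1) / 2

/-- Twice the signed area of the triangle `a b c` (positive if counterclockwise). -/
def orient (a b c : ℂ) : ℝ := (b.re - a.re) * (c.im - a.im) - (b.im - a.im) * (c.re - a.re)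

/-- The description of the optimal `2m`-gon `V` (a `2m`-periodic sequence) with centre `c` by the solution
`(ρ, J)` of the system. -/
structure Optimal (m : ℕ) (ρ : ℤ → ℝ) (J : ℝ) (V : ℤ → ℂ) (c : ℝ) : Prop where
  per : ∀ k, V (k + 2 * m) = V k
  /-- normalisation: the pendant diameter is the segment from `0` to `1` -/
  base : V 0 = 0
  pend : V m = 1
  /-- the real line is an axis of symmetry -/
  sym : ∀ k, V (-k) = conj (V k)
  /-- the distances of the vertices of the star from the centre -/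
  cent : ∀ k, ‖V (idx m k) - c‖ ^ 2 = ρ k
  /-- the turning angles of the star -/
  turn : ∀ k, V (idx m (k + 1)) - V (idx m k) =
    Complex.exp ((wt (2 * m - 1) k * Real.arccos (2 * (ρ k - J)) : ℝ) * Complex.I) *
      (V (idx m (k - 1)) - V (idx m k))
  /-- the diameters: the vertices `a < b` in one period are at distance one exactly in these cases -/
  diam : ∀ a b : ℤ, 0 ≤ a → a < b → b < 2 * m →
    (‖V a - V b‖ = 1 ↔ (b = a + m ∨ b = a + m + 1 ∨ (a = 0 ∧ b = m - 1)))
  /-- strictly convex position, counterclockwise -/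
  conv : ∀ i j k : ℤ, i < j → j < k → k < i + 2 * m → 0 < orient (V i) (V j) (V k)

/-! ## Comparison with the definitions of the proof -/

namespace Aux

open Pool.Agent.Lib.MP_97284c_gt

theorem simple_iff {n : ℕ} [NeZero n] (v : Fin n → ℂ) :
    LargestSmall.SmallSimple v ↔ Pool.Agent.Lib.MP_97284c_gt.SmallSimple v :=
  ⟨fun h => ⟨⟨h.inj, h.adj, h.nonadj⟩, h.small⟩,
    fun h => ⟨h.simple.inj, h.simple.adj, h.simple.nonadj, h.small⟩⟩

theorem area_eq {n : ℕ} [NeZero n] (v : Fin n → ℂ) : LargestSmall.area v = parea v := rfl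

theorem areas_eq (n : ℕ) [NeZero n] :
    LargestSmall.areas n = Pool.Agent.Lib.MP_97284c_gt.areas n := by
  ext A
  constructor
  · rintro ⟨v, hv, rfl⟩
    exact ⟨v, (simple_iff v).1 hv, rfl⟩
  · rintro ⟨v, hv, rfl⟩
    exact ⟨v, (simple_iff v).2 hv, rfl⟩

theorem adm_iff (N : ℕ) (ρ : ℤ → ℝ) (J : ℝ) :
    LargestSmall.Adm N ρ J ↔ Pool.Agent.Lib.MP_97284c_gt.Adm N ρ J :=
  ⟨fun h => ⟨h.per, h.tri, h.sml, h.lo, h.hi⟩, fun h => ⟨h.per, h.tri, h.sml, h.lo, h.hi⟩⟩

theorem sys_iff (N : ℕ) (ρ : ℤ → ℝ) (J : ℝ) : LargestSmall.System N ρ J ↔ Sol N ρ J :=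
  ⟨fun h => ⟨(adm_iff N ρ J).1 h.adm, h.eq, h.sum⟩,
    fun h => ⟨(adm_iff N ρ J).2 h.toAdm, h.eq, h.sum⟩⟩

theorem val_eq (N : ℕ) (ρ : ℤ → ℝ) (J : ℝ) :
    LargestSmall.Val N ρ J = Pool.Agent.Lib.MP_97284c_gt.Val N ρ J := rfl

theorem sf_eq (N : ℕ) (ρ : ℤ → ℝ) (J : ℝ) :
    LargestSmall.Sf N ρ J = Pool.Agent.Lib.MP_97284c_gt.Sf N ρ J := rfl

theorem idx_eq (m : ℕ) (k : ℤ) : LargestSmall.idx m k = Pool.Agent.Lib.MP_97284c_gt.idx m 0 k := by
  unfold LargestSmall.idx Pool.Agent.Lib.MP_97284c_gt.idx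
  split_ifs <;> ring

theorem orient_eq' (a b c : ℂ) :
    LargestSmall.orient a b c = Pool.Agent.Lib.MP_97284c_gt.orient a b c := by
  unfold LargestSmall.orient Pool.Agent.Lib.MP_97284c_gt.orient cr
  simp

end Aux

/-- The complete description in the case `n = 2 m`: the system has exactly one solution `(ρ, J)`, it is
symmetric; `A_n` is the value of the formula `Val` at the solution, and it is the minimum of `Sf` over all
admissible data, attained only at the solution; the polygon `V` described by the solution is a small simple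
`n`-gon of area `A_n`, and every small simple `n`-gon of area `A_n` is congruent to it (by a motion, or by a
motion and a reflection; `s` is the shift of the labels). -/
structure EvenCase (m : ℕ) [NeZero (2 * m)] (ρ : ℤ → ℝ) (J : ℝ) (V : ℤ → ℂ) (c : ℝ) : Prop where
  sol : System (2 * m - 1) ρ J
  uniq : ∀ ρ' J', System (2 * m - 1) ρ' J' → ρ' = ρ ∧ J' = J
  symm : ∀ k, ρ (-k) = ρ k
  value : IsGreatest (areas (2 * m)) (Val (2 * m - 1) ρ J)
  valueSf : Val (2 * m - 1) ρ J = Sf (2 * m - 1) ρ J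
  minim : ∀ ρ' J', Adm (2 * m - 1) ρ' J' → Sf (2 * m - 1) ρ J ≤ Sf (2 * m - 1) ρ' J' ∧
    (Sf (2 * m - 1) ρ' J' = Sf (2 * m - 1) ρ J → ρ' = ρ ∧ J' = J)
  optimal : Optimal m ρ J V c
  simple : SmallSimple (fun i : Fin (2 * m) => V i.val)
  attained : area (fun i : Fin (2 * m) => V i.val) = Val (2 * m - 1) ρ J
  congr : ∀ v : Fin (2 * m) → ℂ, SmallSimple v → area v = Val (2 * m - 1) ρ J →
    ∃ (a u : ℂ) (s : ℤ), ‖u‖ = 1 ∧ ((∀ i : Fin (2 * m), v i = a + u * V (s + i.val)) ∨
      (∀ i : Fin (2 * m), v i = a + u * conj (V (s + i.val))))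

/-- **The maximal area `A_n` of small polygons, for every `n ≥ 3`.** (`IsGreatest (areas n) A` says that `A` is
the largest area of a simple `n`-gon with diameter at most one.) -/
theorem result :
    (∀ (n : ℕ) [NeZero n], Odd n → 3 ≤ n → IsGreatest (areas n)
      (n * Real.sin (2 * Real.pi / n) / (8 * Real.cos (Real.pi / (2 * n)) ^ 2))) ∧
    IsGreatest (areas 4) (1 / 2) ∧
    (∀ (m : ℕ) [NeZero (2 * m)], 3 ≤ m →
      ∃ (ρ : ℤ → ℝ) (J : ℝ) (V : ℤ → ℂ) (c : ℝ), EvenCase m ρ J V c) := by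
  refine ⟨?_, ?_, ?_⟩
  · intro n _ hodd hn
    rw [Aux.areas_eq]
    exact Pool.Agent.Lib.MP_97284c_gt.o_odd Pool.Agent.Lib.MP_97284c_gt.h_Inp
      Pool.Agent.Lib.MP_97284c_gt.h_S7 Pool.Agent.Lib.MP_97284c_gt.h_S8
      Pool.Agent.Lib.MP_97284c_gt.h_R1 Pool.Agent.Lib.MP_97284c_gt.h_R2
      Pool.Agent.Lib.MP_97284c_gt.h_A4 Pool.Agent.Lib.MP_97284c_gt.h_A7 hodd hn
  · rw [Aux.areas_eq]
    exact Pool.Agent.Lib.MP_97284c_gt.o_quad
  · intro m _ hm
    obtain ⟨ρ, J, V, c, ⟨h1, h2, h3⟩, h4, ⟨h5, h6⟩, ⟨g1, g2, g3, g4, g5, g6, g7, g8⟩, ⟨h7, h8⟩, h9⟩ :=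
      Pool.Agent.Lib.MP_97284c_gt.q_final Pool.Agent.Lib.MP_97284c_gt.h_Main
        Pool.Agent.Lib.MP_97284c_gt.h_Inp m hm
    refine ⟨ρ, J, V, c, ⟨(Aux.sys_iff _ _ _).2 h1,
      fun ρ' J' h => h2 ρ' J' ((Aux.sys_iff _ _ _).1 h), h3, ?_, h5,
      fun ρ' J' h => h6 ρ' J' ((Aux.adm_iff _ _ _).1 h), ?_,
      (Aux.simple_iff _).2 h7, h8, fun v hv hva => h9 v ((Aux.simple_iff v).1 hv) hva⟩⟩
    · rw [Aux.areas_eq]; exact h4
    · refine ⟨g1, g2, g3, g4, ?_, ?_, g7, ?_⟩
      · intro k; rw [Aux.idx_eq]; exact g5 k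
      · intro k; rw [Aux.idx_eq, Aux.idx_eq, Aux.idx_eq]; exact g6 k
      · intro i j k hij hjk hk; rw [Aux.orient_eq']; exact g8 i j k hij hjk hk

end Pool.Agent.Results.MP_97284c_gt.LargestSmall
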